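import Pool.Agent.Y521.SD.Stm

/-! SD-STAGE: one stage of the smoothing of a map to an affine manifold -/

set_option autoImplicit false

open Set Filter Topology Metric Function MeasureTheory
open scoped Manifold ContDiff

noncomputable section

namespace Pool.Agent.Y563.SD

open Pool.Agent.Y522 Pool.Agent.Y521.SD

section inv

variable {n : ℕ} {T : Type} [TopologicalSpace T] {Ω : Set (E n)} {π : E n → T} {B : Set (E n)}

theorem isOpen_image (hA : Aff n Ω π) (hB : IsOpen B) (hBΩ : B ⊆ Ω) : IsOpen (π '' B) := by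
  rw [isOpen_iff_mem_nhds]
  rintro _ ⟨b, hb, rfl⟩
  exact hA.nhd b (hBΩ hb) B (hB.mem_nhds hb)

theorem inv_mem [Nonempty (E n)] {t : T} (ht : t ∈ π '' B) : invFunOn π B t ∈ B :=
  invFunOn_mem ht

theorem inv_eq [Nonempty (E n)] {t : T} (ht : t ∈ π '' B) : π (invFunOn π B t) = t :=
  invFunOn_eq ht

theorem inv_apply [Nonempty (E n)] (hi : InjOn π B) {b : E n} (hb : b ∈ B) :
    invFunOn π B (π b) = b :=
  hi (invFunOn_mem ⟨b, hb, rfl⟩) hb (invFunOn_eq ⟨b, hb, rfl⟩)

theorem inv_cont [Nonempty (E n)] (hA : Aff n Ω π) (hB : IsOpen B) (hBΩ : B ⊆ Ω)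
    (hi : InjOn π B) {t : T} (ht : t ∈ π '' B) : ContinuousAt (invFunOn π B) t := by
  obtain ⟨b, hb, rfl⟩ := ht
  intro U hU
  rw [inv_apply hi hb] at hU
  have h1 : π '' (U ∩ B) ∈ 𝓝 (π b) := hA.nhd b (hBΩ hb) _ (inter_mem hU (hB.mem_nhds hb))
  rw [mem_map]
  refine mem_of_superset h1 ?_
  rintro _ ⟨u, ⟨hu, huB⟩, rfl⟩
  change invFunOn π B (π u) ∈ U
  rw [inv_apply hi huB]
  exact hu

end inv

section compare

variable {n : ℕ} {T : Type} [TopologicalSpace T] {Ω : Set (E n)} {π : E n → T} {B : Set (E n)}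
  {X : Type} [TopologicalSpace X] [ChartedSpace (E n) X] {h : X → T}

/-- comparison of the lift in the ball with an arbitrary local lift -/
theorem compare (hA : Aff n Ω π) (hB : IsOpen B) (hBΩ : B ⊆ Ω)
    (hi : InjOn π B) {x : X} (hx : h x ∈ π '' B) {G : X → E n} (hG : Lift n Ω π h G x) :
    ∃ L : E n ≃L[ℝ] E n, ∀ᶠ y in 𝓝 x,
      invFunOn π B (h y) = L (G y - G x) + invFunOn π B (h x) := by
  obtain ⟨hG1, hG2⟩ := hG
  have h0 := hG2.self_of_nhds
  have hFx : invFunOn π B (h x) ∈ B := inv_mem hx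
  obtain ⟨L, hL⟩ := hA.aff (G x) hG1 (invFunOn π B (h x)) (hBΩ hFx) (by rw [h0.2, inv_eq hx])
  refine ⟨L, ?_⟩
  have h1 : ∀ᶠ y in 𝓝 x, π (L (G y - G x) + invFunOn π B (h x)) = π (G y) := h0.1.eventually hL
  have h2 : ContinuousAt (fun y => L (G y - G x) + invFunOn π B (h x)) x := by
    have h3 : ContinuousAt (fun y => G y - G x) x := h0.1.sub continuousAt_const
    have h4 : ContinuousAt (fun y => L (G y - G x)) x :=
      (L.continuous.continuousAt).comp h3
    exact h4.add continuousAt_const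
  have h3 : ∀ᶠ y in 𝓝 x, L (G y - G x) + invFunOn π B (h x) ∈ B := by
    apply h2
    apply hB.mem_nhds
    simpa using hFx
  filter_upwards [h1, h3, hG2] with y hy1 hy3 hy2
  rw [← hy2.2, ← hy1, inv_apply hi hy3]

theorem LD_of_LDp (hA : Aff n Ω π) (hB : IsOpen B) (hBΩ : B ⊆ Ω)
    (hi : InjOn π B) {x : X} (hx : h x ∈ π '' B) (hl : LDp n Ω π h x) :
    LD n (fun y => invFunOn π B (h y)) x := by
  obtain ⟨G, hG, hGd⟩ := hl
  obtain ⟨L, hL⟩ := compare hA hB hBΩ hi hx hG
  have h1 : LD n (fun y => L (G y + (- G x)) + invFunOn π B (h x)) x := by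
    refine LD.comp_fun (g := fun z => z + invFunOn π B (h x)) (LD_add_const _ _) ?_
    refine LD.comp_fun (g := fun z => L z) (LD_linear L _) ?_
    exact LD.comp_fun (g := fun z => z + (- G x)) (LD_add_const _ _) hGd
  refine h1.congr ?_
  filter_upwards [hL] with y hy
  rw [hy, sub_eq_add_neg]

theorem DMon_of_DMp (hA : Aff n Ω π) (hB : IsOpen B) (hBΩ : B ⊆ Ω)
    (hi : InjOn π B) {x : X} (hx : h x ∈ π '' B) (hl : DMp n Ω π h x) :
    DMon n (fun y => invFunOn π B (h y)) x := by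
  obtain ⟨G, hG, A, hA0, hAd, hm⟩ := hl
  obtain ⟨L, hL⟩ := compare hA hB hBΩ hi hx hG
  refine ⟨A, hA0, hAd, fun w hw => ?_⟩
  obtain ⟨r, ℓ, hr, h1⟩ := hm w hw
  have h2 : ∀ᶠ p in 𝓝 (0 : E n),
      invFunOn π B (h (A p)) = L (G (A p) - G x) + invFunOn π B (h x) := by
    have h8 : Tendsto A (𝓝 0) (𝓝 x) := by
      have := hAd.continuousAt
      rwa [ContinuousAt, hA0] at this
    exact h8.eventually hL
  obtain ⟨s, hs, h3⟩ := Metric.eventually_nhds_iff.1 h2
  refine ⟨min r (s / 2), ℓ.comp (L.symm : E n →L[ℝ] E n), lt_min hr (by positivity), ?_⟩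
  intro p q hp hq t ht hpq
  have hr' : min r (s / 2) ≤ r := min_le_left _ _
  have hs' : min r (s / 2) ≤ s / 2 := min_le_right _ _
  have h4 := h1 p q (hp.trans hr') (hq.trans hr') t ht
    (hpq.trans (mul_le_mul_of_nonneg_right hr' ht.le))
  have h5 : ∀ p : E n, ‖p‖ ≤ min r (s / 2) →
      ℓ (L.symm (invFunOn π B (h (A p)))) =
        ℓ (G (A p)) + (ℓ (L.symm (invFunOn π B (h x))) - ℓ (G x)) := by
    intro p hp
    rw [h3 (by rw [dist_zero_right]; linarith), map_add, ContinuousLinearEquiv.symm_apply_apply,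
      map_add, map_sub]
    ring
  change ℓ (L.symm (invFunOn π B (h (A p)))) < ℓ (L.symm (invFunOn π B (h (A q))))
  rw [h5 p hp, h5 q hq]
  linarith

end compare

theorem stage (hP : StPhase) : StStage := by
  intro n T _ _ Ω π X _ _ _ _ _ h m D v r i hA hc hi hx hD hr hΩ hπ hDl
  classical
  set B := ball (v i) (r i) with hBdef
  have hB : IsOpen B := isOpen_ball
  have hBΩ : B ⊆ Ω := hΩ i
  have hiB : InjOn π B := hπ i
  set V := π '' B with hV
  have hVo : IsOpen V := isOpen_image hA hB hBΩ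
  set W := h ⁻¹' V with hW
  have hWo : IsOpen W := hVo.preimage hc
  set F : X → E n := fun y => invFunOn π B (h y) with hF
  have hF1 : ∀ x ∈ W, F x ∈ B := fun x hx => inv_mem hx
  have hF2 : ∀ x ∈ W, π (F x) = h x := fun x hx => inv_eq hx
  have hFc : ∀ x ∈ W, ContinuousAt F x := fun x hx =>
    ContinuousAt.comp (f := h) (g := invFunOn π B) (inv_cont hA hB hBΩ hiB hx) hc.continuousAt
  have hFcW : ContinuousOn F W := fun x hx => (hFc x hx).continuousWithinAt
  have hFi : InjOn F W := by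
    intro x hx y hy hxy
    apply hi
    rw [← hF2 x hx, ← hF2 y hy, hxy]
  have hπc : ContinuousOn π B := hA.cont.mono hBΩ
  have hKW : D i ⊆ W := fun x hx => hDl i ⟨x, hx, rfl⟩
  obtain ⟨C, hC, hCW, hPh⟩ := hP n X F W B (D i) hWo hFcW hB hF1 hFi
    (by
      intro L hL hLc
      have h1 : W ∩ F ⁻¹' L = h ⁻¹' (π '' L) := by
        ext x
        constructor
        · rintro ⟨h2, h3⟩
          exact ⟨F x, h3, hF2 x h2⟩
        · rintro ⟨l, hl, hlx⟩
          refine ⟨⟨l, hL hl, hlx⟩, ?_⟩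
          change invFunOn π B (h x) ∈ L
          rw [← hlx, inv_apply hiB (hL hl)]
          exact hl
      rw [h1]
      exact ((hLc.image_of_continuousOn (hπc.mono hL)).isClosed.preimage hc).isCompact)
    (by
      intro x hxW
      rcases hx x with h1 | h1
      · exact Or.inl (LD_of_LDp hA hB hBΩ hiB hxW h1)
      · exact Or.inr (DMon_of_DMp hA hB hBΩ hiB hxW h1))
    (hD i) hKW
  -- the margin
  have hO : ∀ l, ∃ e : ℝ, 0 < e ∧ thickening e (F '' (D l ∩ C)) ⊆
      B ∩ π ⁻¹' (π '' ball (v l) (r l)) := by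
    intro l
    refine IsCompact.exists_thickening_subset_open ?_ ?_ ?_
    · exact ((hD l).inter_right hC.isClosed).image_of_continuousOn
        (hFcW.mono (inter_subset_right.trans hCW))
    · exact hπc.isOpen_inter_preimage hB (isOpen_image hA isOpen_ball (hΩ l))
    · rintro _ ⟨x, ⟨hx1, hx2⟩, rfl⟩
      refine ⟨hF1 x (hCW hx2), ?_⟩
      change π (F x) ∈ π '' ball (v l) (r l)
      rw [hF2 x (hCW hx2)]
      exact hDl l ⟨x, hx1, rfl⟩
  choose ε hε hεO using hO
  obtain ⟨l₀, -, hl₀⟩ := Finset.exists_min_image Finset.univ ε ⟨i, Finset.mem_univ i⟩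
  obtain ⟨F', hF'c, hF'C, hF'e, hF'W, hF'i, hF'L, hF'K, hF'm⟩ := hPh (ε l₀ / 2) (by
    have := hε l₀
    positivity)
  set h' : X → T := fun x => if x ∈ C then π (F' x) else h x with hh'
  have h'C : ∀ x, x ∉ C → h' x = h x := fun x hx => if_neg hx
  have h'W : ∀ x ∈ W, h' x = π (F' x) := by
    intro x hx
    by_cases hxC : x ∈ C
    · exact if_pos hxC
    · rw [h'C x hxC, hF'C x hxC, hF2 x hx]
  have hF'B : ∀ x ∈ W, F' x ∈ B := fun x hx => hF'W hx
  have hF'ca : ∀ x ∈ W, ContinuousAt F' x := fun x hx => hF'c.continuousAt (hWo.mem_nhds hx)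
  have hCo : IsOpen Cᶜ := hC.isClosed.isOpen_compl
  have hlift : ∀ x ∈ W, Lift n Ω π h' F' x := by
    intro x hx
    refine ⟨hBΩ (hF'B x hx), ?_⟩
    filter_upwards [hWo.mem_nhds hx] with y hy
    exact ⟨hF'ca y hy, (h'W y hy).symm⟩
  have hlift' : ∀ x, x ∉ C → ∀ G, Lift n Ω π h G x → Lift n Ω π h' G x := by
    intro x hx G hG
    refine ⟨hG.1, ?_⟩
    filter_upwards [hCo.mem_nhds hx, hG.2] with y hy hy2
    exact ⟨hy2.1, by rw [hy2.2, h'C y hy]⟩
  refine ⟨h', ?_, ?_, ?_, ?_, ?_, ?_⟩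
  · rw [continuous_iff_continuousAt]
    intro x
    by_cases hxC : x ∈ C
    · have hxW := hCW hxC
      have h1 : ContinuousAt (fun y => π (F' y)) x :=
        ContinuousAt.comp (f := F') (g := π)
          (hπc.continuousAt (hB.mem_nhds (hF'B x hxW))) (hF'ca x hxW)
      refine h1.congr ?_
      filter_upwards [hWo.mem_nhds hxW] with y hy
      exact (h'W y hy).symm
    · refine hc.continuousAt.congr ?_
      filter_upwards [hCo.mem_nhds hxC] with y hy
      exact (h'C y hy).symm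
  · intro x y hxy
    have hmix : ∀ x y, x ∈ W → y ∉ W → h' x ≠ h' y := by
      intro x y hx hy hxy
      rw [h'W x hx, h'C y fun hC => hy (hCW hC)] at hxy
      exact hy ⟨F' x, hF'B x hx, hxy⟩
    by_cases hxW : x ∈ W
    · by_cases hyW : y ∈ W
      · rw [h'W x hxW, h'W y hyW] at hxy
        exact hF'i hxW hyW (hiB (hF'B x hxW) (hF'B y hyW) hxy)
      · exact absurd hxy (hmix x y hxW hyW)
    · by_cases hyW : y ∈ W
      · exact absurd hxy.symm (hmix y x hyW hxW)
      · rw [h'C x fun hC => hxW (hCW hC), h'C y fun hC => hyW (hCW hC)] at hxy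
        exact hi hxy
  · intro x
    by_cases hxW : x ∈ W
    · rcases hF'm x hxW with h1 | h1
      · exact Or.inl ⟨F', hlift x hxW, h1⟩
      · exact Or.inr ⟨F', hlift x hxW, h1⟩
    · have hxC : x ∉ C := fun hC => hxW (hCW hC)
      rcases hx x with ⟨G, hG, h1⟩ | ⟨G, hG, h1⟩
      · exact Or.inl ⟨G, hlift' x hxC G hG, h1⟩
      · exact Or.inr ⟨G, hlift' x hxC G hG, h1⟩
  · rintro l _ ⟨x, hxl, rfl⟩
    by_cases hxC : x ∈ C
    · have hxW := hCW hxC
      rw [h'W x hxW]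
      have h1 : F' x ∈ thickening (ε l) (F '' (D l ∩ C)) := by
        rw [mem_thickening_iff]
        refine ⟨F x, ⟨x, ⟨hxl, hxC⟩, rfl⟩, ?_⟩
        rw [dist_eq_norm]
        have h2 := hF'e x
        have h3 := hl₀ l (Finset.mem_univ l)
        have h4 := hε l₀
        linarith
      exact (hεO l h1).2
    · rw [h'C x hxC]
      exact hDl l ⟨x, hxl, rfl⟩
  · intro x hxL
    by_cases hxW : x ∈ W
    · exact ⟨F', hlift x hxW, hF'L x (LD_of_LDp hA hB hBΩ hiB hxW hxL)⟩
    · have hxC : x ∉ C := fun hC => hxW (hCW hC)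
      obtain ⟨G, hG, h1⟩ := hxL
      exact ⟨G, hlift' x hxC G hG, h1⟩
  · intro x hxD
    exact ⟨F', hlift x (hKW hxD), hF'K x hxD⟩

end Pool.Agent.Y563.SD
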